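import Mathlib

set_option autoImplicit false

/-!
# Many values `n` with a prescribed number of prime factors of `n² + a` modulo `m`

Module A: upper bounds for the mean value of the function `F c n = ∏_{p ∣ n} c p`.
-/

namespace Pool.Agent.Lib.MP_391708_nt.Many

open Finset ArithmeticFunction

/-- `F c n = ∏_{p ∣ n} c p` -/
noncomputable def F (c : ℕ → ℝ) (n : ℕ) : ℝ := ∏ p ∈ n.primeFactors, c p

section F

variable {c : ℕ → ℝ}

lemma F_nonneg (hc : ∀ p, 0 ≤ c p) (n : ℕ) : 0 ≤ F c n := prod_nonneg fun p _ => hc p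

lemma F_one : F c 1 = 1 := by simp [F]

lemma F_mul {m n : ℕ} (h : m.Coprime n) : F c (m * n) = F c m * F c n := by
  unfold F
  rw [h.primeFactors_mul, prod_union h.disjoint_primeFactors]

lemma F_pow {p k : ℕ} (hp : p.Prime) (hk : k ≠ 0) : F c (p ^ k) = c p := by
  unfold F
  rw [Nat.primeFactors_prime_pow hk hp, prod_singleton]

lemma F_prime {p : ℕ} (hp : p.Prime) : F c p = c p := by
  have := F_pow (c := c) hp one_ne_zero
  rwa [pow_one] at this

/-- multiplication by a prime power changes `F c` by a bounded factor -/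
lemma F_pow_mul_le {B : ℝ} (hc : ∀ p, 0 ≤ c p) (hB : ∀ p, c p ≤ B) (hB1 : 1 ≤ B) {p k m : ℕ}
    (hp : p.Prime) (hk : k ≠ 0) (hm : m ≠ 0) : F c (p ^ k * m) ≤ B * F c m := by
  have h1 : (p ^ k * m).primeFactors = insert p m.primeFactors := by
    rw [Nat.primeFactors_mul (pow_ne_zero _ hp.ne_zero) hm, Nat.primeFactors_prime_pow hk hp]
    rfl
  have h0 := F_nonneg hc m
  unfold F at h0 ⊢
  rw [h1]
  by_cases h : p ∈ m.primeFactors
  · rw [insert_eq_of_mem h]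
    nlinarith
  · rw [prod_insert h]
    exact mul_le_mul_of_nonneg_right (hB p) h0

lemma vonMangoldt_mul_F_le {B : ℝ} (hc : ∀ p, 0 ≤ c p) (hB : ∀ p, c p ≤ B) (hB1 : 1 ≤ B)
    {d m : ℕ} (hm : m ≠ 0) : Λ d * F c (d * m) ≤ Λ d * (B * F c m) := by
  by_cases h : Λ d = 0
  · rw [h, zero_mul, zero_mul]
  · obtain ⟨p, k, hp, hk, rfl⟩ := vonMangoldt_ne_zero_iff.1 h
    exact mul_le_mul_of_nonneg_left (F_pow_mul_le hc hB hB1 (Nat.prime_iff.2 hp) hk.ne' hm)
      vonMangoldt_nonneg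

end F

/-- summation over divisors -/
lemma sum_divisors_swap (x : ℕ) (G : ℕ → ℕ → ℝ) :
    ∑ n ∈ Icc 1 x, ∑ d ∈ n.divisors, G d (n / d) =
      ∑ m ∈ Icc 1 x, ∑ d ∈ Icc 1 (x / m), G d m := by
  rw [sum_sigma', sum_sigma']
  refine sum_bij' (fun s _ => ⟨s.1 / s.2, s.2⟩) (fun s _ => ⟨s.1 * s.2, s.2⟩) ?_ ?_ ?_ ?_ ?_
  · rintro ⟨n, d⟩ h
    simp only [mem_sigma, mem_Icc, Nat.mem_divisors] at h ⊢
    obtain ⟨⟨h1, h2⟩, ⟨k, hk⟩, h3⟩ := h
    have hd : 0 < d := Nat.pos_of_ne_zero (by rintro rfl; simp at hk; omega)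
    have hk0 : 0 < k := Nat.pos_of_ne_zero (by rintro rfl; simp at hk; omega)
    have h4 : n / d = k := by rw [hk]; exact Nat.mul_div_cancel_left k hd
    rw [h4]
    refine ⟨⟨hk0, ?_⟩, hd, ?_⟩
    · calc k ≤ d * k := Nat.le_mul_of_pos_left k hd
        _ ≤ x := by omega
    · rw [Nat.le_div_iff_mul_le hk0, ← hk]; exact h2
  · rintro ⟨m, d⟩ h
    simp only [mem_sigma, mem_Icc, Nat.mem_divisors] at h ⊢
    obtain ⟨⟨h1, h2⟩, h3, h4⟩ := h
    have h5 : d * m ≤ x := (Nat.le_div_iff_mul_le (by omega)).1 h4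
    have h6 : 0 < m * d := Nat.mul_pos (by omega) (by omega)
    exact ⟨⟨by omega, by rw [mul_comm]; exact h5⟩, Dvd.intro_left m rfl, h6.ne'⟩
  · rintro ⟨n, d⟩ h
    simp only [mem_sigma, mem_Icc, Nat.mem_divisors] at h
    simp only [Sigma.mk.injEq, heq_eq_eq, and_true]
    exact Nat.div_mul_cancel h.2.1
  · rintro ⟨m, d⟩ h
    simp only [mem_sigma, mem_Icc] at h
    simp only [Sigma.mk.injEq, heq_eq_eq, and_true]
    exact Nat.mul_div_cancel m (by omega)
  · rintro ⟨n, d⟩ _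
    rfl

/-- `∑ F(n) log n ≪ x ∑ F(n)/n` -/
lemma sum_mul_log_le {c : ℕ → ℝ} {B : ℝ} (hc : ∀ p, 0 ≤ c p) (hB : ∀ p, c p ≤ B) (hB1 : 1 ≤ B)
    (x : ℕ) : ∑ n ∈ Icc 1 x, F c n * Real.log n ≤
      B * (Real.log 4 + 4) * x * ∑ n ∈ Icc 1 x, F c n / n := by
  have h2 : ∑ n ∈ Icc 1 x, F c n * Real.log n =
      ∑ n ∈ Icc 1 x, ∑ d ∈ n.divisors, (fun d m => Λ d * F c (d * m)) d (n / d) := by
    refine sum_congr rfl fun n _ => ?_
    rw [← vonMangoldt_sum, mul_sum]
    refine sum_congr rfl fun d hd => ?_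
    simp only
    rw [Nat.mul_div_cancel' (Nat.dvd_of_mem_divisors hd), mul_comm]
  rw [h2, sum_divisors_swap x (fun d m => Λ d * F c (d * m)), mul_sum]
  refine sum_le_sum fun m hm => ?_
  rw [mem_Icc] at hm
  have hm0 : m ≠ 0 := by omega
  have h3 : ∑ d ∈ Icc 1 (x / m), Λ d * F c (d * m) ≤
      ∑ d ∈ Icc 1 (x / m), Λ d * (B * F c m) :=
    sum_le_sum fun d _ => vonMangoldt_mul_F_le hc hB hB1 hm0
  refine h3.trans ?_
  rw [← sum_mul]
  have h4 : ∑ d ∈ Icc 1 (x / m), Λ d = Chebyshev.psi ((x / m : ℕ) : ℝ) := by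
    unfold Chebyshev.psi
    rw [Nat.floor_natCast]
    rfl
  have h5 := Chebyshev.psi_le_const_mul_self (x := ((x / m : ℕ) : ℝ)) (Nat.cast_nonneg _)
  have h6 : ((x / m : ℕ) : ℝ) ≤ (x : ℝ) / m := Nat.cast_div_le
  have h7 : (0 : ℝ) ≤ Real.log 4 + 4 := by
    have := Real.log_nonneg (by norm_num : (1 : ℝ) ≤ 4)
    linarith
  rw [h4]
  have h8 := F_nonneg hc m
  calc Chebyshev.psi ((x / m : ℕ) : ℝ) * (B * F c m)
      ≤ ((Real.log 4 + 4) * ((x : ℝ) / m)) * (B * F c m) := by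
        refine mul_le_mul_of_nonneg_right (h5.trans ?_) (by positivity)
        exact mul_le_mul_of_nonneg_left h6 h7
    _ = B * (Real.log 4 + 4) * x * (F c m / m) := by ring

/-- the basic inequality `log x · ∑ F ≪ x ∑ F(n)/n` -/
lemma log_mul_sum_le {c : ℕ → ℝ} {B : ℝ} (hc : ∀ p, 0 ≤ c p) (hB : ∀ p, c p ≤ B) (hB1 : 1 ≤ B)
    (x : ℕ) : Real.log x * ∑ n ∈ Icc 1 x, F c n ≤
      (B * (Real.log 4 + 4) + 1) * x * ∑ n ∈ Icc 1 x, F c n / n := by
  have h1 := sum_mul_log_le hc hB hB1 x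
  have h2 : ∑ n ∈ Icc 1 x, F c n * (Real.log x - Real.log n) ≤ x * ∑ n ∈ Icc 1 x, F c n / n := by
    rw [mul_sum]
    refine sum_le_sum fun n hn => ?_
    rw [mem_Icc] at hn
    have hn0 : (0 : ℝ) < n := by exact_mod_cast (by omega : 0 < n)
    have hx0 : (0 : ℝ) < x := by exact_mod_cast (by omega : 0 < x)
    have h3 : Real.log x - Real.log n ≤ x / n := by
      rw [← Real.log_div hx0.ne' hn0.ne']
      exact Real.log_le_self (by positivity)
    calc F c n * (Real.log x - Real.log n) ≤ F c n * (x / n) :=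
          mul_le_mul_of_nonneg_left h3 (F_nonneg hc n)
      _ = x * (F c n / n) := by ring
  have h3 : Real.log x * ∑ n ∈ Icc 1 x, F c n = ∑ n ∈ Icc 1 x, F c n * Real.log n +
      ∑ n ∈ Icc 1 x, F c n * (Real.log x - Real.log n) := by
    rw [← sum_add_distrib, mul_sum]
    refine sum_congr rfl fun n _ => ?_
    ring
  rw [h3]
  calc _ ≤ B * (Real.log 4 + 4) * x * ∑ n ∈ Icc 1 x, F c n / n +
        x * ∑ n ∈ Icc 1 x, F c n / n := add_le_add h1 h2
    _ = _ := by ring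

lemma sum_inv_mul_pred_le (x : ℕ) :
    ∑ n ∈ Icc 1 (x + 1), 1 / ((n : ℝ) * (n - 1)) ≤ 1 - 1 / ((x : ℝ) + 1) := by
  induction x with
  | zero => simp
  | succ x ih =>
    rw [← Finset.insert_Icc_right_eq_Icc_add_one (by omega), sum_insert (by simp)]
    have h1 : (0 : ℝ) < (x : ℝ) + 1 := by positivity
    have h2 : 1 / (((x + 1 + 1 : ℕ) : ℝ) * (((x + 1 + 1 : ℕ) : ℝ) - 1)) =
        1 / ((x : ℝ) + 1) - 1 / (((x + 1 : ℕ) : ℝ) + 1) := by
      push_cast
      have h3 : (x : ℝ) + 1 + 1 - 1 = x + 1 := by ring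
      rw [h3]
      field_simp
      ring
    rw [h2]
    linarith

/-- Euler product bound for `∑ F(n)/n`. -/
lemma sum_F_div_le {c : ℕ → ℝ} {B : ℝ} (hc : ∀ p, 0 ≤ c p) (hB : ∀ p, c p ≤ B) (x : ℕ) :
    ∑ n ∈ Icc 1 x, F c n / n ≤
      Real.exp B * Real.exp (∑ p ∈ (Icc 1 x).filter Nat.Prime, c p / p) := by
  have hB0 : 0 ≤ B := (hc 0).trans (hB 0)
  set f : ℕ → ℝ := fun n => F c n / n with hf
  have hf0 : ∀ n, 0 ≤ f n := fun n => div_nonneg (F_nonneg hc n) (Nat.cast_nonneg n)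
  have hf1 : f 1 = 1 := by simp [hf, F_one]
  have hmul : ∀ {m n : ℕ}, m.Coprime n → f (m * n) = f m * f n := by
    intro m n h
    simp only [hf]
    rw [F_mul h]
    push_cast
    rw [mul_div_mul_comm]
  have hpow : ∀ {p : ℕ}, p.Prime → ∀ k : ℕ, f (p ^ (k + 1)) = c p / p * (1 / (p : ℝ)) ^ k := by
    intro p hp k
    have hp0 : (p : ℝ) ≠ 0 := by exact_mod_cast hp.ne_zero
    simp only [hf]
    rw [F_pow hp (Nat.succ_ne_zero k), one_div, inv_pow]
    push_cast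
    rw [pow_succ]
    field_simp
  have hgeo : ∀ {p : ℕ}, p.Prime → HasSum (fun k : ℕ => f (p ^ k)) (1 + c p / ((p : ℝ) - 1)) := by
    intro p hp
    have hp1 : (1 : ℝ) < p := by exact_mod_cast hp.one_lt
    have h1 : HasSum (fun k : ℕ => c p / p * (1 / (p : ℝ)) ^ k) (c p / p * (1 - 1 / (p : ℝ))⁻¹) :=
      (hasSum_geometric_of_lt_one (by positivity)
        (by rw [div_lt_one (by linarith)]; exact hp1)).mul_left _
    have h3 : c p / p * (1 - 1 / (p : ℝ))⁻¹ = c p / ((p : ℝ) - 1) := by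
      have : (p : ℝ) - 1 ≠ 0 := by linarith
      field_simp
    have h2 : HasSum (fun k : ℕ => f (p ^ (k + 1))) (c p / ((p : ℝ) - 1)) := by
      rw [← h3]
      convert h1 using 2 with k
      exact hpow hp k
    have h4 := (hasSum_nat_add_iff (f := fun k : ℕ => f (p ^ k)) 1).1 h2
    rw [range_one, sum_singleton, pow_zero, hf1, add_comm] at h4
    exact h4
  obtain ⟨-, h2⟩ := EulerProduct.summable_and_hasSum_factoredNumbers_prod_filter_prime_tsum
    hf1 hmul (fun {p} hp => (hgeo hp).summable.norm) (Icc 1 x)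
  have h3 : HasSum ((Nat.factoredNumbers (Icc 1 x)).indicator f)
      (∏ p ∈ (Icc 1 x).filter Nat.Prime, ∑' n : ℕ, f (p ^ n)) :=
    hasSum_subtype_iff_indicator.1 h2
  have h4 : ∑ n ∈ Icc 1 x, f n ≤ ∏ p ∈ (Icc 1 x).filter Nat.Prime, ∑' n : ℕ, f (p ^ n) := by
    refine le_trans (le_of_eq ?_) (sum_le_hasSum (Icc 1 x)
      (fun n _ => Set.indicator_nonneg (fun n _ => hf0 n) n) h3)
    refine sum_congr rfl fun n hn => ?_
    rw [mem_Icc] at hn
    rw [Set.indicator_of_mem]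
    refine ⟨by omega, fun p hp => ?_⟩
    rw [mem_Icc]
    have h5 := Nat.prime_of_mem_primeFactorsList hp
    have h6 := Nat.le_of_mem_primeFactorsList hp
    exact ⟨h5.one_lt.le, h6.trans hn.2⟩
  refine h4.trans ?_
  have h5 : ∏ p ∈ (Icc 1 x).filter Nat.Prime, ∑' n : ℕ, f (p ^ n) ≤
      ∏ p ∈ (Icc 1 x).filter Nat.Prime, Real.exp (c p / p + B * (1 / ((p : ℝ) * (p - 1)))) := by
    refine prod_le_prod (fun p _ => tsum_nonneg fun n => hf0 _) fun p hp => ?_
    rw [mem_filter] at hp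
    have hp1 : (1 : ℝ) < p := by exact_mod_cast hp.2.one_lt
    rw [(hgeo hp.2).tsum_eq]
    have h6 : c p / ((p : ℝ) - 1) ≤ c p / p + B * (1 / ((p : ℝ) * (p - 1))) := by
      have h7 : c p / ((p : ℝ) - 1) = c p / p + c p * (1 / ((p : ℝ) * (p - 1))) := by
        have : (p : ℝ) - 1 ≠ 0 := by linarith
        field_simp
        ring
      rw [h7]
      have h8 : 0 ≤ 1 / ((p : ℝ) * (p - 1)) := by
        apply div_nonneg zero_le_one
        apply mul_nonneg <;> linarith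
      have := mul_le_mul_of_nonneg_right (hB p) h8
      linarith
    have h7 := Real.add_one_le_exp (c p / p + B * (1 / ((p : ℝ) * (p - 1))))
    linarith
  refine h5.trans ?_
  rw [← Real.exp_sum, sum_add_distrib, ← mul_sum, ← Real.exp_add]
  apply Real.exp_le_exp.2
  have h6 : ∑ p ∈ (Icc 1 x).filter Nat.Prime, 1 / ((p : ℝ) * (p - 1)) ≤ 1 := by
    rcases Nat.eq_zero_or_pos x with rfl | hx
    · simp
    · obtain ⟨y, rfl⟩ := Nat.exists_eq_add_of_le' hx
      have h7 := sum_inv_mul_pred_le y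
      have h8 : (0 : ℝ) < 1 / ((y : ℝ) + 1) := by positivity
      refine le_trans (sum_le_sum_of_subset_of_nonneg (filter_subset _ _) ?_) (h7.trans (by linarith))
      intro i hi _
      rw [mem_Icc] at hi
      have : (1 : ℝ) ≤ i := by exact_mod_cast hi.1
      apply div_nonneg zero_le_one
      apply mul_nonneg <;> linarith
  have := mul_le_mul_of_nonneg_left h6 hB0
  linarith

end Pool.Agent.Lib.MP_391708_nt.Many
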