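import Pool.Agent.Lib.MP_391708_nt.Many.Mertens

set_option autoImplicit false

/-!
# Many values: mean values over the good numbers
-/

namespace Pool.Agent.Lib.MP_391708_nt.Many

open Finset

/-- indicator of the numbers all of whose primes are good -/
noncomputable def sg (a : ℤ) (n : ℕ) : ℝ := F (gp a) n

/-- `∑_{n ≤ x} s(n)/n` -/
noncomputable def LS (a : ℤ) (x : ℕ) : ℝ := ∑ n ∈ Icc 1 x, sg a n / n

/-- `∑_{n ≤ x} s(n)` -/
noncomputable def AS (a : ℤ) (x : ℕ) : ℝ := ∑ n ∈ Icc 1 x, sg a n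

/-- `∑_{j m ≤ x} s(j) s(m)` -/
noncomputable def TS (a : ℤ) (x : ℕ) : ℝ :=
  ∑ j ∈ Icc 1 x, ∑ m ∈ Icc 1 (x / j), sg a j * sg a m

open Classical in
lemma sg_eq (a : ℤ) (n : ℕ) : sg a n = if ∀ p ∈ n.primeFactors, Gd a p then 1 else 0 := by
  unfold sg F gp
  rw [prod_ite_zero]
  simp

lemma sg_nonneg (a : ℤ) (n : ℕ) : 0 ≤ sg a n := F_nonneg (gp_nonneg a) n

lemma sg_le_one (a : ℤ) (n : ℕ) : sg a n ≤ 1 := by
  rw [sg_eq]; split_ifs <;> norm_num

lemma sg_mul (a : ℤ) {m n : ℕ} (hm : m ≠ 0) (hn : n ≠ 0) : sg a (m * n) = sg a m * sg a n := by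
  rw [sg_eq, sg_eq, sg_eq, Nat.primeFactors_mul hm hn]
  by_cases h1 : ∀ p ∈ m.primeFactors, Gd a p
  · by_cases h2 : ∀ p ∈ n.primeFactors, Gd a p
    · rw [if_pos h1, if_pos h2, if_pos]
      · norm_num
      · intro p hp
        rw [mem_union] at hp
        exact hp.elim (h1 p) (h2 p)
    · rw [if_pos h1, if_neg h2, if_neg]
      · norm_num
      · intro h
        exact h2 fun p hp => h p (mem_union_right _ hp)
  · rw [if_neg h1, if_neg, zero_mul]
    intro h
    exact h1 fun p hp => h p (mem_union_left _ hp)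

lemma AS_le (a : ℤ) (x : ℕ) : AS a x ≤ x := by
  unfold AS
  calc ∑ n ∈ Icc 1 x, sg a n ≤ ∑ n ∈ Icc 1 x, (1 : ℝ) := sum_le_sum fun n _ => sg_le_one a n
    _ = x := by simp

lemma AS_nonneg (a : ℤ) (x : ℕ) : 0 ≤ AS a x := sum_nonneg fun n _ => sg_nonneg a n

lemma AS_mono (a : ℤ) {x y : ℕ} (h : x ≤ y) : AS a x ≤ AS a y :=
  sum_le_sum_of_subset_of_nonneg (Icc_subset_Icc le_rfl h) fun n _ _ => sg_nonneg a n

lemma LS_nonneg (a : ℤ) (x : ℕ) : 0 ≤ LS a x :=
  sum_nonneg fun n _ => div_nonneg (sg_nonneg a n) (Nat.cast_nonneg n)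

lemma LS_mono (a : ℤ) {x y : ℕ} (h : x ≤ y) : LS a x ≤ LS a y :=
  sum_le_sum_of_subset_of_nonneg (Icc_subset_Icc le_rfl h)
    fun n _ _ => div_nonneg (sg_nonneg a n) (Nat.cast_nonneg n)

lemma log_gt_one {y : ℕ} (hy : 3 ≤ y) : 1 < Real.log y := by
  have hlog3 : 1 < Real.log 3 := by
    rw [Real.lt_log_iff_exp_lt (by norm_num)]
    exact Real.exp_one_lt_d9.trans (by norm_num)
  have hy3 : (3 : ℝ) ≤ y := by exact_mod_cast hy
  exact hlog3.trans_le (Real.log_le_log (by norm_num) hy3)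

/-- `∑_{n ≤ x} s(n)/n ≪ √log x` -/
lemma LS_le {a : ℤ} (ha : ¬ IsSquare (-a)) : ∃ C : ℝ, 0 < C ∧ ∀ x : ℕ, 3 ≤ x →
    LS a x ≤ C * Real.sqrt (Real.log x) := by
  obtain ⟨C, hC⟩ := mertens_good ha
  refine ⟨Real.exp 1 * Real.exp C, by positivity, fun x hx => ?_⟩
  have h1 := sum_F_div_le (gp_nonneg a) (gp_le a) x
  have h2 := hC x hx
  have hlog := log_gt_one hx
  have h3 : Real.exp (∑ p ∈ (Icc 1 x).filter Nat.Prime, gp a p / (p : ℝ)) ≤
      Real.exp C * Real.sqrt (Real.log x) := by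
    have h4 : Real.sqrt (Real.log x) = Real.exp ((1 / 2) * Real.log (Real.log x)) := by
      rw [Real.sqrt_eq_rpow, Real.rpow_def_of_pos (by linarith), mul_comm]
    rw [h4, ← Real.exp_add]
    apply Real.exp_le_exp.2
    linarith
  unfold LS sg
  calc _ ≤ _ := h1
    _ ≤ Real.exp 1 * (Real.exp C * Real.sqrt (Real.log x)) :=
      mul_le_mul_of_nonneg_left h3 (Real.exp_pos _).le
    _ = _ := by ring

/-- `∑_{n ≤ x} s(n) ≪ x / √log x` -/
lemma AS_le_sqrt {a : ℤ} (ha : ¬ IsSquare (-a)) : ∃ C : ℝ, 0 < C ∧ ∀ x : ℕ, 3 ≤ x →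
    AS a x ≤ C * x / Real.sqrt (Real.log x) := by
  obtain ⟨C, hC0, hC⟩ := LS_le ha
  have h7 : (0 : ℝ) ≤ Real.log 4 + 4 := by
    have := Real.log_nonneg (by norm_num : (1 : ℝ) ≤ 4)
    linarith
  refine ⟨(1 * (Real.log 4 + 4) + 1) * C, by positivity, fun x hx => ?_⟩
  have h1 := log_mul_sum_le (gp_nonneg a) (gp_le a) le_rfl x
  have h2 := hC x hx
  have hlog := log_gt_one hx
  have hs : 0 < Real.sqrt (Real.log x) := Real.sqrt_pos.2 (by linarith)
  have hs2 : Real.sqrt (Real.log x) * Real.sqrt (Real.log x) = Real.log x :=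
    Real.mul_self_sqrt (by linarith)
  rw [le_div_iff₀ hs]
  have h3 : Real.log x * AS a x ≤ (1 * (Real.log 4 + 4) + 1) * x * (C * Real.sqrt (Real.log x)) := by
    refine h1.trans (mul_le_mul_of_nonneg_left h2 (by positivity))
  have h4 : Real.sqrt (Real.log x) * (AS a x * Real.sqrt (Real.log x)) ≤
      Real.sqrt (Real.log x) * ((1 * (Real.log 4 + 4) + 1) * C * x) := by
    calc Real.sqrt (Real.log x) * (AS a x * Real.sqrt (Real.log x)) =
          (Real.sqrt (Real.log x) * Real.sqrt (Real.log x)) * AS a x := by ring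
      _ = Real.log x * AS a x := by rw [hs2]
      _ ≤ _ := h3
      _ = _ := by ring
  exact le_of_mul_le_mul_left h4 hs

/-- `A(2^k) ≪ 2^k/√k` -/
lemma AS_pow_le {a : ℤ} (ha : ¬ IsSquare (-a)) : ∃ C : ℝ, 0 < C ∧ ∀ k : ℕ, 1 ≤ k →
    AS a (2 ^ k) ≤ C * 2 ^ k / Real.sqrt k := by
  obtain ⟨C, hC0, hC⟩ := AS_le_sqrt ha
  refine ⟨max 2 (2 * C), lt_of_lt_of_le two_pos (le_max_left _ _), fun k hk => ?_⟩
  have hk0 : (0 : ℝ) < k := by exact_mod_cast hk
  have hsk : 0 < Real.sqrt k := Real.sqrt_pos.2 hk0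
  rcases Nat.lt_or_ge k 2 with h1 | h1
  · have hk1 : k = 1 := by omega
    subst hk1
    have h2 := AS_le a (2 ^ 1)
    have h2' : (((2 : ℕ) ^ 1 : ℕ) : ℝ) = 2 := by norm_num
    rw [h2'] at h2
    have h3 : (2 : ℝ) ≤ max 2 (2 * C) := le_max_left _ _
    rw [Nat.cast_one, Real.sqrt_one, div_one]
    linarith
  · have h3 : 3 ≤ 2 ^ k := by
      calc 3 ≤ 2 ^ 2 := by norm_num
        _ ≤ 2 ^ k := Nat.pow_le_pow_right (by norm_num) h1
    have h4 := hC (2 ^ k) h3
    refine h4.trans ?_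
    have h5 : Real.log ((2 ^ k : ℕ) : ℝ) = k * Real.log 2 := by
      push_cast
      rw [Real.log_pow]
    rw [h5]
    have h6 : Real.sqrt k / 2 ≤ Real.sqrt (k * Real.log 2) := by
      rw [Real.sqrt_mul hk0.le]
      have h7 : (1 / 2 : ℝ) ≤ Real.sqrt (Real.log 2) := by
        apply Real.le_sqrt_of_sq_le
        have := Real.log_two_gt_d9
        norm_num
        linarith
      calc Real.sqrt k / 2 = Real.sqrt k * (1 / 2) := by ring
        _ ≤ _ := mul_le_mul_of_nonneg_left h7 hsk.le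
    push_cast
    calc C * 2 ^ k / Real.sqrt (k * Real.log 2) ≤ C * 2 ^ k / (Real.sqrt k / 2) := by
          gcongr
      _ = 2 * C * 2 ^ k / Real.sqrt k := by field_simp
      _ ≤ max 2 (2 * C) * 2 ^ k / Real.sqrt k := by
          gcongr
          exact le_max_right _ _

/-- symmetry of the hyperbola region -/
lemma sum_hyp_swap (x : ℕ) (G : ℕ → ℕ → ℝ) :
    ∑ j ∈ Icc 1 x, ∑ m ∈ Icc 1 (x / j), G j m = ∑ m ∈ Icc 1 x, ∑ j ∈ Icc 1 (x / m), G j m := by
  refine sum_comm' ?_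
  intro j m
  simp only [mem_Icc]
  constructor
  · rintro ⟨⟨h1, h2⟩, h3, h4⟩
    have h5 : m * j ≤ x := (Nat.le_div_iff_mul_le (by omega)).1 h4
    refine ⟨⟨h1, ?_⟩, h3, ?_⟩
    · rw [Nat.le_div_iff_mul_le (by omega), mul_comm]; exact h5
    · exact (Nat.le_mul_of_pos_right m (by omega)).trans h5
  · rintro ⟨⟨h1, h2⟩, h3, h4⟩
    have h5 : j * m ≤ x := (Nat.le_div_iff_mul_le (by omega)).1 h2
    refine ⟨⟨h1, (Nat.le_mul_of_pos_right j (by omega)).trans h5⟩, h3, ?_⟩
    rw [Nat.le_div_iff_mul_le (by omega), mul_comm]; exact h5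

/-- `∑_{j m ≤ x} s(j) s(m) ≪ x` -/
lemma TS_le {a : ℤ} (ha : ¬ IsSquare (-a)) : ∃ C : ℝ, 0 < C ∧ ∀ x : ℕ, TS a x ≤ C * x := by
  obtain ⟨C, hC0, hC⟩ := LS_le ha
  have h7 : (0 : ℝ) ≤ Real.log 4 + 4 := by
    have := Real.log_nonneg (by norm_num : (1 : ℝ) ≤ 4)
    linarith
  set K : ℝ := 1 * (Real.log 4 + 4) with hK
  have hK0 : 0 ≤ K := by rw [hK]; linarith
  refine ⟨max 3 ((2 * K + 1) * C ^ 2), lt_of_lt_of_le (by norm_num) (le_max_left _ _), fun x => ?_⟩
  have hx0 : (0 : ℝ) ≤ x := Nat.cast_nonneg x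
  rcases Nat.lt_or_ge x 3 with hx | hx
  · have h1 : TS a x ≤ ∑ j ∈ Icc 1 x, ∑ m ∈ Icc 1 x, (1 : ℝ) := by
      unfold TS
      refine sum_le_sum fun j _ => ?_
      refine (sum_le_sum_of_subset_of_nonneg (Icc_subset_Icc le_rfl (Nat.div_le_self x j))
        fun m _ _ => mul_nonneg (sg_nonneg a j) (sg_nonneg a m)).trans ?_
      refine sum_le_sum fun m _ => ?_
      exact mul_le_one₀ (sg_le_one a j) (sg_nonneg a m) (sg_le_one a m)
    have h2 : ∑ j ∈ Icc 1 x, ∑ m ∈ Icc 1 x, (1 : ℝ) = x * x := by simp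
    rw [h2] at h1
    refine h1.trans ?_
    have h3 : (x : ℝ) ≤ 3 := by exact_mod_cast hx.le
    have h4 : (3 : ℝ) ≤ max 3 ((2 * K + 1) * C ^ 2) := le_max_left _ _
    exact mul_le_mul_of_nonneg_right (h3.trans h4) hx0
  · have hlog := log_gt_one hx
    have h1 : ∀ (j m : ℕ), 1 ≤ j → 1 ≤ m → Real.log x =
        Real.log j + Real.log m + Real.log (x / (j * m)) := by
      intro j m hj hm
      have hj0 : (j : ℝ) ≠ 0 := by exact_mod_cast (by omega : j ≠ 0)
      have hm0 : (m : ℝ) ≠ 0 := by exact_mod_cast (by omega : m ≠ 0)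
      have hx1 : (x : ℝ) ≠ 0 := by exact_mod_cast (by omega : x ≠ 0)
      rw [Real.log_div hx1 (mul_ne_zero hj0 hm0), Real.log_mul hj0 hm0]
      ring
    have h2 : Real.log x * TS a x =
        ∑ j ∈ Icc 1 x, ∑ m ∈ Icc 1 (x / j), sg a j * sg a m * Real.log j +
        ∑ j ∈ Icc 1 x, ∑ m ∈ Icc 1 (x / j), sg a j * sg a m * Real.log m +
        ∑ j ∈ Icc 1 x, ∑ m ∈ Icc 1 (x / j), sg a j * sg a m * Real.log (x / (j * m)) := by
      unfold TS
      rw [mul_sum, ← sum_add_distrib, ← sum_add_distrib]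
      refine sum_congr rfl fun j hj => ?_
      rw [mul_sum, ← sum_add_distrib, ← sum_add_distrib]
      refine sum_congr rfl fun m hm => ?_
      rw [mem_Icc] at hj hm
      rw [h1 j m hj.1 hm.1]
      ring
    have hL0 := LS_nonneg a x
    have h3 : ∑ j ∈ Icc 1 x, ∑ m ∈ Icc 1 (x / j), sg a j * sg a m * Real.log m ≤
        K * x * (LS a x * LS a x) := by
      have h4 : ∀ j ∈ Icc 1 x, ∑ m ∈ Icc 1 (x / j), sg a j * sg a m * Real.log m ≤
          sg a j / j * (K * x * LS a x) := by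
        intro j hj
        rw [mem_Icc] at hj
        have h5 := sum_mul_log_le (gp_nonneg a) (gp_le a) le_rfl (x / j)
        have h6 : ∑ m ∈ Icc 1 (x / j), sg a j * sg a m * Real.log m =
            sg a j * ∑ m ∈ Icc 1 (x / j), F (gp a) m * Real.log m := by
          rw [mul_sum]
          refine sum_congr rfl fun m _ => ?_
          unfold sg
          ring
        have h8 : ((x / j : ℕ) : ℝ) ≤ (x : ℝ) / j := Nat.cast_div_le
        have h9 : LS a (x / j) ≤ LS a x := LS_mono a (Nat.div_le_self x j)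
        rw [h6]
        calc sg a j * ∑ m ∈ Icc 1 (x / j), F (gp a) m * Real.log m
            ≤ sg a j * (K * ((x / j : ℕ) : ℝ) * LS a (x / j)) :=
              mul_le_mul_of_nonneg_left h5 (sg_nonneg a j)
          _ ≤ sg a j * (K * ((x : ℝ) / j) * LS a x) := by
              refine mul_le_mul_of_nonneg_left ?_ (sg_nonneg a j)
              refine mul_le_mul (mul_le_mul_of_nonneg_left h8 hK0) h9 (LS_nonneg _ _)
                (by positivity)
          _ = _ := by ring
      refine (sum_le_sum h4).trans ?_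
      rw [← sum_mul]
      unfold LS
      apply le_of_eq
      ring
    have h4 : ∑ j ∈ Icc 1 x, ∑ m ∈ Icc 1 (x / j), sg a j * sg a m * Real.log j ≤
        K * x * (LS a x * LS a x) := by
      rw [sum_hyp_swap x (fun j m => sg a j * sg a m * Real.log j)]
      refine le_trans (le_of_eq ?_) h3
      refine sum_congr rfl fun m _ => sum_congr rfl fun j _ => ?_
      ring
    have h5 : ∑ j ∈ Icc 1 x, ∑ m ∈ Icc 1 (x / j), sg a j * sg a m * Real.log (x / (j * m)) ≤
        x * (LS a x * LS a x) := by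
      have h6 : ∀ j ∈ Icc 1 x, ∑ m ∈ Icc 1 (x / j), sg a j * sg a m * Real.log (x / (j * m)) ≤
          sg a j / j * (x * LS a x) := by
        intro j hj
        rw [mem_Icc] at hj
        have hj0 : (0 : ℝ) < j := by exact_mod_cast (by omega : 0 < j)
        calc ∑ m ∈ Icc 1 (x / j), sg a j * sg a m * Real.log (x / (j * m))
            ≤ ∑ m ∈ Icc 1 (x / j), sg a j / j * x * (sg a m / m) := by
              refine sum_le_sum fun m hm => ?_
              rw [mem_Icc] at hm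
              have hm0 : (0 : ℝ) < m := by exact_mod_cast (by omega : 0 < m)
              have h8 : Real.log (x / (j * m)) ≤ x / (j * m) :=
                Real.log_le_self (by positivity)
              calc sg a j * sg a m * Real.log (x / (j * m)) ≤ sg a j * sg a m * (x / (j * m)) :=
                    mul_le_mul_of_nonneg_left h8 (mul_nonneg (sg_nonneg _ _) (sg_nonneg _ _))
                _ = _ := by field_simp
          _ ≤ ∑ m ∈ Icc 1 x, sg a j / j * x * (sg a m / m) := by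
              refine sum_le_sum_of_subset_of_nonneg
                (Icc_subset_Icc le_rfl (Nat.div_le_self x j)) fun m _ _ => ?_
              have := sg_nonneg a j
              have := sg_nonneg a m
              positivity
          _ = _ := by
              rw [← mul_sum]
              unfold LS
              ring
      refine (sum_le_sum h6).trans ?_
      rw [← sum_mul]
      unfold LS
      apply le_of_eq
      ring
    have h6 : Real.log x * TS a x ≤ (2 * K + 1) * x * (LS a x * LS a x) := by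
      rw [h2]; linarith
    have h8 : LS a x * LS a x ≤ C ^ 2 * Real.log x := by
      have h9 := hC x hx
      calc LS a x * LS a x ≤ (C * Real.sqrt (Real.log x)) * (C * Real.sqrt (Real.log x)) :=
            mul_le_mul h9 h9 hL0 (by positivity)
        _ = C ^ 2 * (Real.sqrt (Real.log x) * Real.sqrt (Real.log x)) := by ring
        _ = C ^ 2 * Real.log x := by rw [Real.mul_self_sqrt (by linarith)]
    have h9 : Real.log x * TS a x ≤ Real.log x * ((2 * K + 1) * C ^ 2 * x) := by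
      refine h6.trans ?_
      calc (2 * K + 1) * x * (LS a x * LS a x) ≤ (2 * K + 1) * x * (C ^ 2 * Real.log x) :=
            mul_le_mul_of_nonneg_left h8 (by positivity)
        _ = _ := by ring
    have h10 := le_of_mul_le_mul_left h9 (by linarith)
    exact h10.trans (mul_le_mul_of_nonneg_right (le_max_right _ _) hx0)

/-- `∑_{n ≤ x} ∏_{p ∣ n} t c(p) ≪ x (log x)^(t-1)` -/
lemma sum_cp_le {a : ℤ} (ha : ¬ IsSquare (-a)) {t : ℝ} (ht1 : 1 ≤ t) : ∃ C : ℝ, 0 < C ∧
    ∀ x : ℕ, 3 ≤ x → ∑ n ∈ Icc 1 x, F (fun p => t * cp a p) n ≤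
      C * x * Real.log x ^ (t - 1) := by
  obtain ⟨C, hC⟩ := mertens_good ha
  have h7 : (0 : ℝ) ≤ Real.log 4 + 4 := by
    have := Real.log_nonneg (by norm_num : (1 : ℝ) ≤ 4)
    linarith
  have ht0 : 0 < t := by linarith
  have hc : ∀ p, 0 ≤ t * cp a p := fun p => mul_nonneg ht0.le (cp_nonneg a p)
  have hB : ∀ p, t * cp a p ≤ 2 * t := by
    intro p
    have := cp_le a p
    have := gp_le a p
    nlinarith
  refine ⟨(2 * t * (Real.log 4 + 4) + 1) * (Real.exp (2 * t) * Real.exp (2 * t * C)),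
    by positivity, fun x hx => ?_⟩
  have hlog := log_gt_one hx
  have hx0 : (0 : ℝ) ≤ x := Nat.cast_nonneg x
  have h1 := log_mul_sum_le hc hB (by linarith) x
  have h2 := sum_F_div_le hc hB x
  have h3 : ∑ p ∈ (Icc 1 x).filter Nat.Prime, t * cp a p / (p : ℝ) ≤
      2 * t * C + t * Real.log (Real.log x) := by
    have h4 : ∑ p ∈ (Icc 1 x).filter Nat.Prime, t * cp a p / (p : ℝ) ≤
        2 * t * ∑ p ∈ (Icc 1 x).filter Nat.Prime, gp a p / (p : ℝ) := by
      rw [mul_sum]
      refine sum_le_sum fun p _ => ?_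
      have := mul_le_mul_of_nonneg_left (cp_le a p) ht0.le
      calc t * cp a p / (p : ℝ) ≤ t * (2 * gp a p) / p :=
            div_le_div_of_nonneg_right this (Nat.cast_nonneg p)
        _ = 2 * t * (gp a p / p) := by ring
    have h5 := mul_le_mul_of_nonneg_left (hC x hx) (by linarith : (0 : ℝ) ≤ 2 * t)
    linarith
  have h4 : ∑ n ∈ Icc 1 x, F (fun p => t * cp a p) n / n ≤
      Real.exp (2 * t) * Real.exp (2 * t * C) * Real.log x ^ t := by
    refine h2.trans ?_
    rw [mul_assoc]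
    refine mul_le_mul_of_nonneg_left ?_ (Real.exp_pos _).le
    rw [Real.rpow_def_of_pos (by linarith), ← Real.exp_add]
    apply Real.exp_le_exp.2
    linarith
  have h5 : Real.log x * ∑ n ∈ Icc 1 x, F (fun p => t * cp a p) n ≤ Real.log x *
      ((2 * t * (Real.log 4 + 4) + 1) * (Real.exp (2 * t) * Real.exp (2 * t * C)) * x *
        Real.log x ^ (t - 1)) := by
    have h6 : Real.log x ^ t = Real.log x * Real.log x ^ (t - 1) := by
      rw [Real.rpow_sub_one (by linarith)]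
      field_simp
    calc _ ≤ _ := h1
      _ ≤ (2 * t * (Real.log 4 + 4) + 1) * x *
          (Real.exp (2 * t) * Real.exp (2 * t * C) * Real.log x ^ t) :=
        mul_le_mul_of_nonneg_left h4 (by positivity)
      _ = _ := by rw [h6]; ring
  exact le_of_mul_le_mul_left h5 (by linarith)

end Pool.Agent.Lib.MP_391708_nt.Many
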