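import Pool.Agent.Lib.MP_391708_nt.Many.Roots
import Pool.Agent.Lib.MP_391708_nt.Eqd.Prime
import Pool.Agent.Lib.MP_cb27ba_nt.H71.Jac

set_option autoImplicit false

/-!
# Many values: the good primes have relative density one half
-/

namespace Pool.Agent.Lib.MP_391708_nt.Many

open Finset
open scoped NumberTheorySymbols

lemma mertens_class (q : ℕ) (hq : 0 < q) (b : ℕ) (hb : b.Coprime q) : ∃ C : ℝ, ∀ y : ℕ, 3 ≤ y →
    (∑ p ∈ (Icc 1 y).filter (fun p => p.Prime ∧ p ≡ b [MOD q]), 1 / (p : ℝ)) ≤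
      (1 / (q.totient : ℝ)) * Real.log (Real.log y) + C := by
  obtain ⟨C, hC⟩ := Pool.Agent.Lib.MP391708.Eqd.specPrime q hq b hb 1 one_pos
  refine ⟨C, fun y hy => ?_⟩
  have h := hC y hy 0 (by simp)
  have h1 : (∑ p ∈ (Icc 1 y).filter (fun p => p.Prime ∧ p ≡ b [MOD q]),
      (p : ℂ) ^ (-1 + Complex.I * ((0 : ℝ) : ℂ))) =
      ((∑ p ∈ (Icc 1 y).filter (fun p => p.Prime ∧ p ≡ b [MOD q]), 1 / (p : ℝ) : ℝ) : ℂ) := by
    push_cast
    refine Finset.sum_congr rfl fun p _ => ?_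
    rw [mul_zero, add_zero, Complex.cpow_neg_one, one_div]
  rw [h1, ← Complex.ofReal_sub, Complex.norm_real, Real.norm_eq_abs] at h
  have h2 : -Real.log (1 / Real.log y + |(0 : ℝ)|) = Real.log (Real.log y) := by
    rw [abs_zero, add_zero, one_div, Real.log_inv, neg_neg]
  rw [h2] at h
  have := (abs_le.1 h).2
  linarith

open Classical in
/-- residue classes modulo `4|a|` with symbol `ε` -/
noncomputable def CL (a : ℤ) (e : ℤ) : Finset ℕ :=
  (range (4 * a.natAbs)).filter (fun b => b.Coprime (4 * a.natAbs) ∧ J(-a | b) = e)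

lemma jac_mod {a : ℤ} {b : ℕ} (hb : Odd b) : J(-a | b % (4 * a.natAbs)) = J(-a | b) := by
  have := jacobiSym.mod_right (-a) hb
  rw [Int.natAbs_neg] at this
  exact this.symm

lemma odd_of_coprime {a : ℤ} {b : ℕ} (hb : b.Coprime (4 * a.natAbs)) : Odd b := by
  have h1 : b.Coprime 2 := Nat.Coprime.coprime_dvd_right ⟨2 * a.natAbs, by ring⟩ hb
  rw [Nat.coprime_comm, Nat.coprime_two_left] at h1
  exact h1

lemma mod_coprime {q b : ℕ} (h : b.Coprime q) : (b % q).Coprime q := by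
  have h1 : (b % q).gcd q = b.gcd q := (Nat.mod_modEq b q).gcd_eq
  rw [Nat.Coprime, h1]
  exact h

lemma card_CL_le {a : ℤ} (ha : ¬ IsSquare (-a)) : 2 * (CL a 1).card ≤ (4 * a.natAbs).totient := by
  have ha0 : a ≠ 0 := by rintro rfl; exact ha ⟨0, by simp⟩
  have hQ : 0 < 4 * a.natAbs := by have := Int.natAbs_pos.2 ha0; omega
  obtain ⟨m, hm, hJ⟩ := Pool.Agent.Lib.MP_cb27ba_nt.H71.exists_jacobi_neg_one
    (n := -a) (by omega) ha
  have hcop : m.Coprime (4 * a.natAbs) := by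
    have h1 : Int.gcd (-a) m = 1 := by
      by_contra h
      have h2 : NeZero m := ⟨by rintro rfl; simp at hm⟩
      have h3 := (jacobiSym.eq_zero_iff_not_coprime (a := -a) (b := m)).2 h
      rw [h3] at hJ
      norm_num at hJ
    have h2 : a.natAbs.Coprime m := by
      rw [Int.gcd, Int.natAbs_neg, Int.natAbs_natCast] at h1
      exact h1
    refine Nat.Coprime.mul_right ?_ h2.symm
    have h3 : m.Coprime 2 := by rw [Nat.coprime_comm, Nat.coprime_two_left]; exact hm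
    exact h3.pow_right 2
  have h1 : (CL a 1).card ≤ (CL a (-1)).card := by
    refine card_le_card_of_injOn (fun b => (m * b) % (4 * a.natAbs)) ?_ ?_
    · intro b hb
      unfold CL at hb
      simp only [coe_filter, mem_range, Set.mem_ofPred_eq] at hb
      unfold CL
      simp only [coe_filter, mem_range, Set.mem_ofPred_eq]
      have h2 : (m * b).Coprime (4 * a.natAbs) := Nat.Coprime.mul_left hcop hb.2.1
      refine ⟨Nat.mod_lt _ hQ, mod_coprime h2, ?_⟩
      rw [jac_mod (odd_of_coprime h2), jacobiSym.mul_right' _ (by rintro rfl; simp at hm)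
        (by rintro rfl; have := odd_of_coprime hb.2.1; simp at this), hJ, hb.2.2]
      norm_num
    · intro x hx y hy hxy
      unfold CL at hx hy
      simp only [coe_filter, mem_range, Set.mem_ofPred_eq] at hx hy
      have h1 : m * x ≡ m * y [MOD 4 * a.natAbs] := hxy
      have h2 : x ≡ y [MOD 4 * a.natAbs] := Nat.ModEq.cancel_left_of_coprime
        (by rw [Nat.gcd_comm]; exact hcop) h1
      exact Nat.ModEq.eq_of_lt_of_lt h2 hx.1 hy.1
  have h2 : Disjoint (CL a 1) (CL a (-1)) := by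
    rw [Finset.disjoint_left]
    intro b hb hb'
    unfold CL at hb hb'
    rw [mem_filter] at hb hb'
    rw [hb.2.2] at hb'
    exact absurd hb'.2.2 (by norm_num)
  have h3 : CL a 1 ∪ CL a (-1) ⊆ (range (4 * a.natAbs)).filter (fun b => (4 * a.natAbs).Coprime b) := by
    intro b hb
    unfold CL at hb
    rw [mem_union, mem_filter, mem_filter] at hb
    rw [mem_filter]
    rcases hb with hb | hb
    · exact ⟨hb.1, hb.2.1.symm⟩
    · exact ⟨hb.1, hb.2.1.symm⟩
  have h4 := card_le_card h3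
  rw [card_union_of_disjoint h2] at h4
  rw [Nat.totient]
  omega

/-- a good unramified prime lies in a class of `CL a 1` -/
lemma mod_mem_CL {a : ℤ} (ha0 : a ≠ 0) {p : ℕ} (hp : p.Prime) (hg : Gd a p)
    (h2a : ¬ (p : ℤ) ∣ 2 * a) : p % (4 * a.natAbs) ∈ CL a 1 := by
  have hQ : 0 < 4 * a.natAbs := by have := Int.natAbs_pos.2 ha0; omega
  have hcop : p.Coprime (4 * a.natAbs) := by
    rw [Nat.Prime.coprime_iff_not_dvd hp]
    intro h
    apply h2a
    rw [Int.natCast_dvd, Int.natAbs_mul]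
    have h4 : 4 * a.natAbs = 2 * (2 * a.natAbs) := by ring
    rw [h4] at h
    rcases (Nat.Prime.dvd_mul hp).1 h with h5 | h5
    · exact h5.mul_right _
    · exact h5
  unfold CL
  rw [mem_filter, mem_range]
  refine ⟨Nat.mod_lt _ hQ, mod_coprime hcop, ?_⟩
  rw [jac_mod (odd_of_coprime hcop)]
  have hF : Fact p.Prime := ⟨hp⟩
  obtain ⟨x, hx⟩ := hg
  rw [← jacobiSym.legendreSym.to_jacobiSym]
  have ha' : ((-a : ℤ) : ZMod p) ≠ 0 := by
    intro h
    rw [ZMod.intCast_zmod_eq_zero_iff_dvd] at h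
    apply h2a
    exact ((dvd_neg.1 h)).mul_left 2
  rw [legendreSym.eq_one_iff p ha']
  refine ⟨(x : ZMod p), ?_⟩
  have h1 : (((x ^ 2 + a : ℤ)) : ZMod p) = 0 := by
    rw [ZMod.intCast_zmod_eq_zero_iff_dvd]
    exact_mod_cast hx
  push_cast at h1 ⊢
  linear_combination -h1

/-- **Mertens for the good primes** -/
theorem mertens_good {a : ℤ} (ha : ¬ IsSquare (-a)) : ∃ C : ℝ, ∀ y : ℕ, 3 ≤ y →
    ∑ p ∈ (Icc 1 y).filter Nat.Prime, gp a p / (p : ℝ) ≤
      (1 / 2) * Real.log (Real.log y) + C := by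
  have ha0 : a ≠ 0 := by rintro rfl; exact ha ⟨0, by simp⟩
  have hQ : 0 < 4 * a.natAbs := by have := Int.natAbs_pos.2 ha0; omega
  have h0 : ∀ b ∈ CL a 1, ∃ C : ℝ, ∀ y : ℕ, 3 ≤ y →
      (∑ p ∈ (Icc 1 y).filter (fun p => p.Prime ∧ p ≡ b [MOD 4 * a.natAbs]), 1 / (p : ℝ)) ≤
        (1 / ((4 * a.natAbs).totient : ℝ)) * Real.log (Real.log y) + C := by
    intro b hb
    unfold CL at hb
    rw [mem_filter] at hb
    exact mertens_class _ hQ b hb.2.1
  choose! C hC using h0
  refine ⟨∑ b ∈ CL a 1, C b + ((2 * a).natAbs.primeFactors.card : ℝ), fun y hy => ?_⟩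
  have hlog3 : 1 < Real.log 3 := by
    rw [Real.lt_log_iff_exp_lt (by norm_num)]
    exact Real.exp_one_lt_d9.trans (by norm_num)
  have hy3 : (3 : ℝ) ≤ y := by exact_mod_cast hy
  have hlogy : 1 < Real.log y := hlog3.trans_le (Real.log_le_log (by norm_num) hy3)
  have hLL : 0 ≤ Real.log (Real.log y) := Real.log_nonneg hlogy.le
  have hsub : (Icc 1 y).filter Nat.Prime ⊆ (Icc 1 y).filter Nat.Prime := subset_rfl
  have h1 : ∑ p ∈ (Icc 1 y).filter Nat.Prime, gp a p / (p : ℝ) ≤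
      ∑ p ∈ ((2 * a).natAbs.primeFactors), (1 : ℝ) +
      ∑ b ∈ CL a 1, ∑ p ∈ (Icc 1 y).filter (fun p => p.Prime ∧ p ≡ b [MOD 4 * a.natAbs]),
        1 / (p : ℝ) := by
    have h2 : ∑ p ∈ (Icc 1 y).filter Nat.Prime, gp a p / (p : ℝ) =
        ∑ p ∈ ((Icc 1 y).filter Nat.Prime).filter (fun p : ℕ => (p : ℤ) ∣ 2 * a), gp a p / (p : ℝ) +
        ∑ p ∈ ((Icc 1 y).filter Nat.Prime).filter (fun p : ℕ => ¬ (p : ℤ) ∣ 2 * a),
          gp a p / (p : ℝ) := (sum_filter_add_sum_filter_not _ _ _).symm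
    rw [h2]
    refine add_le_add ?_ ?_
    · have h3 : ∑ p ∈ ((Icc 1 y).filter Nat.Prime).filter (fun p : ℕ => (p : ℤ) ∣ 2 * a),
          gp a p / (p : ℝ) ≤
          ∑ p ∈ ((Icc 1 y).filter Nat.Prime).filter (fun p : ℕ => (p : ℤ) ∣ 2 * a), (1 : ℝ) := by
        refine sum_le_sum fun p hp => ?_
        simp only [mem_filter, mem_Icc] at hp
        have h4 : (1 : ℝ) ≤ p := by exact_mod_cast hp.1.1.1
        rw [div_le_one (by linarith)]
        exact (gp_le a p).trans h4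
      refine h3.trans (sum_le_sum_of_subset_of_nonneg ?_ fun _ _ _ => zero_le_one)
      intro p hp
      simp only [mem_filter, mem_Icc] at hp
      rw [Nat.mem_primeFactors]
      refine ⟨hp.1.2, Int.natCast_dvd.1 hp.2, ?_⟩
      rw [Int.natAbs_ne_zero]; omega
    · classical
      have h3 : ∑ p ∈ ((Icc 1 y).filter Nat.Prime).filter (fun p : ℕ => ¬ (p : ℤ) ∣ 2 * a),
          gp a p / (p : ℝ) =
          ∑ p ∈ (((Icc 1 y).filter Nat.Prime).filter (fun p : ℕ => ¬ (p : ℤ) ∣ 2 * a)).filter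
            (fun p => Gd a p), 1 / (p : ℝ) := by
        rw [sum_filter (fun p => Gd a p)]
        refine sum_congr rfl fun p _ => ?_
        unfold gp
        split_ifs
        · rfl
        · simp
      rw [h3, ← sum_fiberwise_of_maps_to (t := CL a 1) (g := fun p => p % (4 * a.natAbs))]
      · refine sum_le_sum fun b _ => ?_
        refine sum_le_sum_of_subset_of_nonneg ?_ fun _ _ _ => by positivity
        intro p hp
        simp only [mem_filter, mem_Icc] at hp ⊢
        obtain ⟨⟨⟨⟨hp1, hp2⟩, -⟩, -⟩, hp3⟩ := hp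
        refine ⟨hp1, hp2, ?_⟩
        rw [← hp3]
        exact (Nat.mod_modEq p _).symm
      · intro p hp
        simp only [mem_filter, mem_Icc] at hp
        exact mod_mem_CL ha0 hp.1.1.2 hp.2 hp.1.2
  have h2 : ∑ b ∈ CL a 1, ∑ p ∈ (Icc 1 y).filter (fun p => p.Prime ∧ p ≡ b [MOD 4 * a.natAbs]),
        1 / (p : ℝ) ≤ ∑ b ∈ CL a 1,
        ((1 / ((4 * a.natAbs).totient : ℝ)) * Real.log (Real.log y) + C b) :=
    sum_le_sum fun b hb => hC b hb y hy
  have h3 : ((CL a 1).card : ℝ) * (1 / ((4 * a.natAbs).totient : ℝ)) ≤ 1 / 2 := by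
    have h4 : (0 : ℝ) < (4 * a.natAbs).totient := by exact_mod_cast Nat.totient_pos.2 hQ
    have h5 : (2 : ℝ) * (CL a 1).card ≤ (4 * a.natAbs).totient := by exact_mod_cast card_CL_le ha
    rw [mul_one_div, div_le_iff₀ h4]
    linarith
  rw [sum_add_distrib, sum_const, nsmul_eq_mul] at h2
  rw [sum_const, nsmul_eq_mul, mul_one] at h1
  have h4 := mul_le_mul_of_nonneg_right h3 hLL
  calc _ ≤ _ := h1
    _ ≤ _ := by
      have : ((CL a 1).card : ℝ) * (1 / ((4 * a.natAbs).totient : ℝ) * Real.log (Real.log y)) =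
        (CL a 1).card * (1 / ((4 * a.natAbs).totient : ℝ)) * Real.log (Real.log y) := by ring
      linarith

end Pool.Agent.Lib.MP_391708_nt.Many
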