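import Pool.Agent.Lib.MP_391708_nt.Many.Basic

set_option autoImplicit false

/-!
# Many values: the number of roots of `x² + a` modulo `d`
-/

namespace Pool.Agent.Lib.MP_391708_nt.Many

open Finset

/-- number of roots of `x² + a` modulo `d` -/
def rho (a : ℤ) (d : ℕ) : ℕ := ((range d).filter (fun x : ℕ => (d : ℤ) ∣ (x : ℤ) ^ 2 + a)).card

/-- `-a` is a square modulo `p` -/
def Gd (a : ℤ) (p : ℕ) : Prop := ∃ x : ℤ, (p : ℤ) ∣ x ^ 2 + a

open Classical in
/-- the local weight -/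
noncomputable def cp (a : ℤ) (p : ℕ) : ℝ :=
  if Gd a p then (if (p : ℤ) ∣ 2 * a then 1 else 2) else 0

open Classical in
/-- indicator of good primes -/
noncomputable def gp (a : ℤ) (p : ℕ) : ℝ := if Gd a p then 1 else 0

lemma dvd_sq_add_mod {a : ℤ} {d n : ℕ} (h : (d : ℤ) ∣ (n : ℤ) ^ 2 + a) :
    (d : ℤ) ∣ ((n % d : ℕ) : ℤ) ^ 2 + a := by
  rw [Int.natCast_mod]
  have h1 : ((n : ℤ) % d) ^ 2 + a ≡ (n : ℤ) ^ 2 + a [ZMOD d] :=
    ((Int.mod_modEq (n : ℤ) d).pow 2).add_right a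
  exact (Int.ModEq.dvd_iff h1).2 h

/-- roots in an interval of length `C d` -/
lemma card_Icc_le (a : ℤ) (C : ℕ) {d : ℕ} (hd : 0 < d) :
    ((Icc 1 (C * d)).filter (fun n : ℕ => (d : ℤ) ∣ (n : ℤ) ^ 2 + a)).card ≤
      (C + 1) * rho a d := by
  unfold rho
  rw [← card_range (C + 1), ← card_product]
  refine card_le_card_of_injOn (fun n => (n / d, n % d)) ?_ ?_
  · intro n hn
    simp only [coe_filter, mem_Icc, Set.mem_ofPred_eq] at hn
    simp only [coe_product, coe_range, coe_filter, mem_range, Set.mem_prod, Set.mem_Iio,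
      Set.mem_ofPred_eq]
    refine ⟨?_, Nat.mod_lt _ hd, dvd_sq_add_mod hn.2⟩
    have : n / d ≤ C := Nat.div_le_of_le_mul (by rw [mul_comm]; exact hn.1.2)
    omega
  · intro x _ y _ h
    simp only [Prod.mk.injEq] at h
    rw [← Nat.div_add_mod x d, ← Nat.div_add_mod y d, h.1, h.2]

lemma rho_mul_le (a : ℤ) {m n : ℕ} (hm : 0 < m) (hn : 0 < n) (h : m.Coprime n) :
    rho a (m * n) ≤ rho a m * rho a n := by
  unfold rho
  rw [← card_product]
  refine card_le_card_of_injOn (fun x => (x % m, x % n)) ?_ ?_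
  · intro x hx
    simp only [coe_filter, mem_range, Set.mem_ofPred_eq] at hx
    simp only [coe_product, coe_filter, mem_range, Set.mem_prod, Set.mem_ofPred_eq]
    have h1 : (m : ℤ) ∣ (x : ℤ) ^ 2 + a := (Dvd.intro (n : ℤ) (by push_cast; rfl)).trans hx.2
    have h2 : (n : ℤ) ∣ (x : ℤ) ^ 2 + a :=
      (Dvd.intro_left (m : ℤ) (by push_cast; rfl)).trans hx.2
    exact ⟨⟨Nat.mod_lt _ hm, dvd_sq_add_mod h1⟩, Nat.mod_lt _ hn, dvd_sq_add_mod h2⟩
  · intro x hx y hy hxy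
    simp only [coe_filter, mem_range, Set.mem_ofPred_eq] at hx hy
    simp only [Prod.mk.injEq] at hxy
    have h1 : x ≡ y [MOD m * n] := (Nat.modEq_and_modEq_iff_modEq_mul h).1 ⟨hxy.1, hxy.2⟩
    exact Nat.ModEq.eq_of_lt_of_lt h1 hx.1 hy.1

/-- a residue class modulo `M` in an interval of length `M L` -/
lemma card_class_le {M L : ℕ} (r : ℤ) :
    ((range (M * L)).filter (fun x : ℕ => (M : ℤ) ∣ (x : ℤ) - r)).card ≤ L := by
  conv_rhs => rw [← card_range L]
  refine card_le_card_of_injOn (fun x => x / M) ?_ ?_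
  · intro x hx
    simp only [coe_filter, mem_range, Set.mem_ofPred_eq] at hx
    simp only [coe_range, Set.mem_Iio]
    exact Nat.div_lt_of_lt_mul hx.1
  · intro x hx y hy hxy
    simp only [coe_filter, mem_range, Set.mem_ofPred_eq] at hx hy
    simp only at hxy
    have h1 : (M : ℤ) ∣ (x : ℤ) - y := by
      have := dvd_sub hx.2 hy.2
      have h2 : (x : ℤ) - r - (y - r) = x - y := by ring
      rwa [h2] at this
    have h2 : y ≡ x [MOD M] := (Nat.modEq_iff_dvd).2 h1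
    rw [← Nat.div_add_mod x M, ← Nat.div_add_mod y M, hxy, h2]

lemma exists_pow_split {p k : ℕ} (hp : p.Prime) {u v : ℤ} (h : ((p ^ k : ℕ) : ℤ) ∣ u * v) :
    ∃ i j : ℕ, i + j = k ∧ ((p ^ i : ℕ) : ℤ) ∣ u ∧ ((p ^ j : ℕ) : ℤ) ∣ v := by
  rw [Int.natCast_dvd, Int.natAbs_mul] at h
  obtain ⟨d₁, d₂, h1, h2, h3⟩ := exists_dvd_and_dvd_of_dvd_mul h
  obtain ⟨i, hi, rfl⟩ := (Nat.dvd_prime_pow hp).1 (Dvd.intro d₂ h3.symm)
  obtain ⟨j, hj, rfl⟩ := (Nat.dvd_prime_pow hp).1 (Dvd.intro_left _ h3.symm)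
  refine ⟨i, j, ?_, Int.natCast_dvd.2 h1, Int.natCast_dvd.2 h2⟩
  rw [← pow_add] at h3
  exact (Nat.pow_right_injective hp.two_le h3).symm

lemma rho_pow_le {a : ℤ} (ha : a ≠ 0) {p : ℕ} (hp : p.Prime) (k : ℕ) :
    rho a (p ^ k) ≤ 2 * p ^ ((4 * a).natAbs.factorization p) := by
  set V := (4 * a).natAbs.factorization p with hV
  have h4a : (4 * a).natAbs ≠ 0 := by
    rw [Int.natAbs_ne_zero]; omega
  have hppos : 0 < p := hp.pos
  unfold rho
  rcases le_or_gt k V with hk | hk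
  · refine (card_filter_le _ _).trans ?_
    rw [card_range]
    have := Nat.pow_le_pow_right hppos hk
    omega
  rcases ((range (p ^ k)).filter (fun x : ℕ => ((p ^ k : ℕ) : ℤ) ∣ (x : ℤ) ^ 2 + a)).eq_empty_or_nonempty
    with he | ⟨x₀, hx₀⟩
  · rw [he]; simp
  rw [mem_filter] at hx₀
  set M := p ^ (k - V) with hM
  have hMpos : 0 < M := Nat.pow_pos hppos
  have hML : p ^ k = M * p ^ V := by rw [hM, ← pow_add]; congr 1; omega
  have hsub : (range (p ^ k)).filter (fun x : ℕ => ((p ^ k : ℕ) : ℤ) ∣ (x : ℤ) ^ 2 + a) ⊆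
      (range (M * p ^ V)).filter (fun x : ℕ => (M : ℤ) ∣ (x : ℤ) - x₀) ∪
      (range (M * p ^ V)).filter (fun x : ℕ => (M : ℤ) ∣ (x : ℤ) - (-x₀)) := by
    intro x hx
    rw [mem_filter] at hx
    have h1 : ((p ^ k : ℕ) : ℤ) ∣ ((x : ℤ) - x₀) * (x + x₀) := by
      have := dvd_sub hx.2 hx₀.2
      have h2 : (x : ℤ) ^ 2 + a - ((x₀ : ℤ) ^ 2 + a) = (x - x₀) * (x + x₀) := by ring
      rwa [h2] at this
    obtain ⟨i, j, hij, hi, hj⟩ := exists_pow_split hp h1
    have h3 : ((p ^ min i j : ℕ) : ℤ) ∣ 4 * a := by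
      have h4 : ((p ^ min i j : ℕ) : ℤ) ∣ (x : ℤ) - x₀ :=
        (Int.natCast_dvd_natCast.2 (pow_dvd_pow p (min_le_left i j))).trans hi
      have h5 : ((p ^ min i j : ℕ) : ℤ) ∣ (x : ℤ) + x₀ :=
        (Int.natCast_dvd_natCast.2 (pow_dvd_pow p (min_le_right i j))).trans hj
      have h6 : ((p ^ min i j : ℕ) : ℤ) ∣ 2 * x₀ := by
        have := dvd_sub h5 h4
        have h7 : (x : ℤ) + x₀ - (x - x₀) = 2 * x₀ := by ring
        rwa [h7] at this
      have h7 : ((p ^ min i j : ℕ) : ℤ) ∣ (x₀ : ℤ) ^ 2 + a := by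
        refine (Int.natCast_dvd_natCast.2 (pow_dvd_pow p ?_)).trans hx₀.2
        have := min_le_left i j
        omega
      have h8 : 4 * a = 4 * ((x₀ : ℤ) ^ 2 + a) - 2 * x₀ * (2 * x₀) := by ring
      rw [h8]
      exact dvd_sub (h7.mul_left 4) (h6.mul_right _)
    have h4 : min i j ≤ V := by
      rw [Int.natCast_dvd] at h3
      exact (hp.pow_dvd_iff_le_factorization h4a).1 h3
    rw [mem_union, mem_filter, mem_filter, ← hML]
    rcases le_total i j with h5 | h5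
    · right
      refine ⟨hx.1, ?_⟩
      rw [min_eq_left h5] at h4
      rw [sub_neg_eq_add]
      exact (Int.natCast_dvd_natCast.2 (pow_dvd_pow p (by omega))).trans hj
    · left
      refine ⟨hx.1, ?_⟩
      rw [min_eq_right h5] at h4
      exact (Int.natCast_dvd_natCast.2 (pow_dvd_pow p (by omega))).trans hi
  refine (card_le_card hsub).trans ((card_union_le _ _).trans ?_)
  have h1 := card_class_le (M := M) (L := p ^ V) (x₀ : ℤ)
  have h2 := card_class_le (M := M) (L := p ^ V) (-(x₀ : ℤ))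
  omega

/-- the local weight with constants at the ramified primes -/
noncomputable def ep (a : ℤ) (p : ℕ) : ℝ := if (p : ℤ) ∣ 2 * a then 8 * a.natAbs else 1

lemma rho_pow_le_ep {a : ℤ} (ha : a ≠ 0) {p k : ℕ} (hp : p.Prime) (hk : k ≠ 0) :
    (rho a (p ^ k) : ℝ) ≤ ep a p * cp a p := by
  have ha1 : 1 ≤ a.natAbs := Nat.one_le_iff_ne_zero.2 (Int.natAbs_ne_zero.2 ha)
  have ha1' : (1 : ℝ) ≤ a.natAbs := by exact_mod_cast ha1
  by_cases hg : Gd a p
  · unfold cp ep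
    rw [if_pos hg]
    have h1 := rho_pow_le ha hp k
    by_cases h2 : (p : ℤ) ∣ 2 * a
    · rw [if_pos h2, if_pos h2, mul_one]
      have h4a : (4 * a).natAbs ≠ 0 := by
        rw [Int.natAbs_ne_zero]; omega
      have h3 : p ^ ((4 * a).natAbs.factorization p) ≤ (4 * a).natAbs :=
        Nat.ordProj_le p h4a
      have h4 : (4 * a).natAbs = 4 * a.natAbs := by rw [Int.natAbs_mul]; rfl
      have h5 : rho a (p ^ k) ≤ 8 * a.natAbs := by omega
      exact_mod_cast h5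
    · rw [if_neg h2, if_neg h2, one_mul]
      have h3 : (4 * a).natAbs.factorization p = 0 := by
        apply Nat.factorization_eq_zero_of_not_dvd
        intro h4
        rw [← Int.natCast_dvd] at h4
        apply h2
        have h5 : (4 : ℤ) * a = 2 * (2 * a) := by ring
        rw [h5] at h4
        rcases (Nat.prime_iff_prime_int.1 hp).dvd_or_dvd h4 with h6 | h6
        · exact h6.mul_right a
        · exact h6
      rw [h3, pow_zero, mul_one] at h1
      exact_mod_cast h1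
  · have h0 : rho a (p ^ k) = 0 := by
      unfold rho
      rw [card_eq_zero, filter_eq_empty_iff]
      intro x _ hx
      apply hg
      refine ⟨x, (Int.natCast_dvd_natCast.2 (dvd_pow_self p hk)).trans hx⟩
    rw [h0]
    unfold cp ep
    rw [if_neg hg, mul_zero, Nat.cast_zero]

lemma ep_nonneg (a : ℤ) (p : ℕ) : 0 ≤ ep a p := by
  unfold ep; split_ifs <;> positivity

lemma cp_nonneg (a : ℤ) (p : ℕ) : 0 ≤ cp a p := by
  unfold cp; split_ifs <;> norm_num

lemma cp_le (a : ℤ) (p : ℕ) : cp a p ≤ 2 * gp a p := by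
  unfold cp gp; split_ifs <;> norm_num

lemma gp_nonneg (a : ℤ) (p : ℕ) : 0 ≤ gp a p := by
  unfold gp; split_ifs <;> norm_num

lemma gp_le (a : ℤ) (p : ℕ) : gp a p ≤ 1 := by
  unfold gp; split_ifs <;> norm_num

lemma rho_le_F {a : ℤ} (ha : a ≠ 0) {d : ℕ} (hd : 0 < d) :
    (rho a d : ℝ) ≤ F (ep a) d * F (cp a) d := by
  induction d using Nat.recOnPosPrimePosCoprime with
  | prime_pow p n hp hn =>
    rw [F_pow hp hn.ne', F_pow hp hn.ne']
    exact rho_pow_le_ep ha hp hn.ne'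
  | zero => omega
  | one =>
    rw [F_one, F_one]
    unfold rho
    simp
  | coprime x y hx hy hxy ihx ihy =>
    have hx0 : 0 < x := by omega
    have hy0 : 0 < y := by omega
    have h1 : (rho a (x * y) : ℝ) ≤ rho a x * rho a y := by
      exact_mod_cast rho_mul_le a hx0 hy0 hxy
    have h2 := ihx hx0
    have h3 := ihy hy0
    have h4 : (0 : ℝ) ≤ rho a y := Nat.cast_nonneg _
    have h5 := mul_nonneg (F_nonneg (ep_nonneg a) x) (F_nonneg (cp_nonneg a) x)
    calc (rho a (x * y) : ℝ) ≤ rho a x * rho a y := h1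
      _ ≤ (F (ep a) x * F (cp a) x) * (F (ep a) y * F (cp a) y) := mul_le_mul h2 h3 h4 h5
      _ = F (ep a) (x * y) * F (cp a) (x * y) := by rw [F_mul hxy, F_mul hxy]; ring

lemma F_ep_le {a : ℤ} (ha : a ≠ 0) (d : ℕ) :
    F (ep a) d ≤ ∏ _p ∈ (2 * a).natAbs.primeFactors, (8 * (a.natAbs : ℝ)) := by
  have ha1 : 1 ≤ a.natAbs := Nat.one_le_iff_ne_zero.2 (Int.natAbs_ne_zero.2 ha)
  have ha1' : (1 : ℝ) ≤ a.natAbs := by exact_mod_cast ha1
  unfold F
  have h1 : ∏ p ∈ d.primeFactors, ep a p =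
      ∏ p ∈ d.primeFactors.filter (fun p : ℕ => (p : ℤ) ∣ 2 * a), (8 * (a.natAbs : ℝ)) := by
    rw [prod_filter]
    rfl
  rw [h1]
  rw [prod_const, prod_const]
  refine pow_le_pow_right₀ (by linarith) (card_le_card ?_)
  intro p hp
  rw [mem_filter] at hp
  rw [Nat.mem_primeFactors]
  refine ⟨Nat.prime_of_mem_primeFactors hp.1, Int.natCast_dvd.1 hp.2, ?_⟩
  rw [Int.natAbs_ne_zero]; omega

/-- upper bound for the number of roots -/
theorem rho_le (a : ℤ) (ha : a ≠ 0) : ∃ A : ℝ, 0 < A ∧ ∀ d : ℕ, 0 < d →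
    (rho a d : ℝ) ≤ A * F (cp a) d := by
  have ha1 : 1 ≤ a.natAbs := Nat.one_le_iff_ne_zero.2 (Int.natAbs_ne_zero.2 ha)
  have ha1' : (1 : ℝ) ≤ a.natAbs := by exact_mod_cast ha1
  refine ⟨∏ _p ∈ (2 * a).natAbs.primeFactors, (8 * (a.natAbs : ℝ)),
    prod_pos fun _ _ => by linarith, fun d hd => ?_⟩
  exact (rho_le_F ha hd).trans
    (mul_le_mul_of_nonneg_right (F_ep_le ha d) (F_nonneg (cp_nonneg a) d))

end Pool.Agent.Lib.MP_391708_nt.Many
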